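import Pool.Agent.Helper61.P3.St2

/-!
Module TRA of project P3: translations, monotonicity of the energy, the cutoff `ct`.
-/

set_option autoImplicit false

open MeasureTheory Set Filter Topology
open scoped ENNReal RealInnerProductSpace

namespace Pool.Agent.Helper26.P3

open Pool.Agent.Helper61.P3 Pool.Agent.Helper20.RG Pool.Agent.Helper20.EQ
open Pool.Agent.Helper68.LM (Pl BB Bd Av HL ft fm DQ)
open Pool.Agent.Helper68.EP (elt GapP)

private theorem lft_TRA (i : ℕ) (o x : ℝ) (a : ℤ) (t : ℝ) :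
    lft (gk i (o + x)) a t = lft (gk i o) a (t - x) + x := by
  have h : gk i (o + x) a = gk i o a + x := by unfold gk; ring
  unfold lft
  rw [h]
  have h2 : t - (gk i o a + x) = t - x - gk i o a := by ring
  rw [h2]
  ring

private theorem Ed_TRA (i : ℕ) (o x : ℝ) (a : ℤ) (β : ℝ → ℝ) (t : ℝ) :
    Ed (gk i (o + x)) a (fun r => β (r - x)) t = Ed (gk i o) a β (t - x) := by
  unfold Ed Ia
  rw [lft_TRA]
  generalize lft (gk i o) a (t - x) = L
  congr 1
  rw [← integral_indicator measurableSet_Ico, ← integral_indicator measurableSet_Ico,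
    ← integral_sub_right_eq_self (fun r => (Ico L (L + (2 : ℝ) ^ a)).indicator (fun r => β r) r) x]
  congr 1
  funext r
  by_cases hr : r ∈ Ico (L + x) (L + x + (2 : ℝ) ^ a)
  · have hr' : r - x ∈ Ico L (L + (2 : ℝ) ^ a) := by
      obtain ⟨h1, h2⟩ := hr
      exact ⟨by linarith, by linarith⟩
    rw [indicator_of_mem hr, indicator_of_mem hr']
  · have hr' : r - x ∉ Ico L (L + (2 : ℝ) ^ a) := by
      intro h
      obtain ⟨h1, h2⟩ := h
      exact hr ⟨by linarith, by linarith⟩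
    rw [indicator_of_notMem hr, indicator_of_notMem hr']

private theorem en_TRA (i : ℕ) (o x Γ : ℝ) (a ℓ : ℤ) (β : ℝ → ℝ) (ρ : ℝ) :
    en (gk i (o + x)) Γ a ℓ (fun r => β (r - x)) ρ = en (gk i o) Γ a ℓ β (ρ - x) := by
  unfold en
  rw [Ed_TRA]
  have h : (fun r => Tc (Γ * Ed (gk i (o + x)) a (fun r => β (r - x)) r)) =
      fun r => (fun r' => Tc (Γ * Ed (gk i o) a β r')) (r - x) := by
    funext r
    rw [Ed_TRA]
  rw [h, Ed_TRA i o x ℓ (fun r' => Tc (Γ * Ed (gk i o) a β r')) ρ]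

private theorem lnf_TRA (s : ℝ) (b : Pl → ℝ) (w : Pl) (y₀ : ℝ) :
    lnf s (fun y => b (y - w)) y₀ = fun ρ => lnf s b (y₀ - w 0) (ρ - pr s w) := by
  funext ρ
  unfold lnf
  have h : pt y₀ (ρ + s * y₀) - w = pt (y₀ - w 0) (ρ - pr s w + s * (y₀ - w 0)) := by
    ext k
    fin_cases k
    · simp [pt]
    · simp [pt, pr]
      ring
  exact congrArg b h


private theorem ct0_TRA {t : ℝ} (h : t ≤ 1 / 4) : ct t = 0 := by
  unfold ct
  apply max_eq_left
  exact (min_le_right _ _).trans (by linarith)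

private theorem ctnn_TRA (t : ℝ) : 0 ≤ ct t := le_max_left _ _

private theorem ct1_TRA (t : ℝ) : ct t ≤ 1 := max_le zero_le_one (min_le_left _ _)

private theorem lip_TRA (x y : ℝ) : |ct x - ct y| ≤ 8 * |x - y| := by
  unfold ct
  calc |max 0 (min 1 (8 * x - 2)) - max 0 (min 1 (8 * y - 2))| ≤
      |min 1 (8 * x - 2) - min 1 (8 * y - 2)| := by
        have := abs_max_sub_max_le_abs (min 1 (8 * x - 2)) (min 1 (8 * y - 2)) 0
        rwa [max_comm _ (0 : ℝ), max_comm _ (0 : ℝ)] at this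
    _ ≤ |(8 * x - 2) - (8 * y - 2)| := by
        have := abs_min_sub_min_le_max (1 : ℝ) (8 * x - 2) 1 (8 * y - 2)
        rw [sub_self, abs_zero, max_eq_right (abs_nonneg _)] at this
        exact this
    _ = 8 * |x - y| := by
        have : (8 * x - 2) - (8 * y - 2) = 8 * (x - y) := by ring
        rw [this, abs_mul]
        norm_num

private theorem third_TRA (x y η ϖ : ℝ) (hη : 0 < η) (hϖ : 0 < ϖ) :
    |ct (|x| / η) - ct (|y| / η)| ≤ 32 / η ^ 2 * ((x - y) ^ 2 / ϖ + ϖ * (x ^ 2 + y ^ 2)) := by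
  have hR : 0 ≤ 32 / η ^ 2 * ((x - y) ^ 2 / ϖ + ϖ * (x ^ 2 + y ^ 2)) := by positivity
  by_cases h : |x| ≤ η / 4 ∧ |y| ≤ η / 4
  · rw [ct0_TRA (by rw [div_le_iff₀ hη]; linarith [h.1]),
      ct0_TRA (by rw [div_le_iff₀ hη]; linarith [h.2]), sub_self, abs_zero]
    exact hR
  · have h4 : η ≤ 4 * (|x| + |y|) := by
      by_contra hc
      push Not at hc
      apply h
      have := abs_nonneg x
      have := abs_nonneg y
      constructor <;> linarith
    have h1 := lip_TRA (|x| / η) (|y| / η)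
    have h2 : |(|x| / η - |y| / η)| ≤ |x - y| / η := by
      rw [← sub_div, abs_div, abs_of_pos hη]
      exact div_le_div_of_nonneg_right (abs_abs_sub_abs_le_abs_sub x y) hη.le
    have h3 : 8 * (|x - y| / η) ≤ 32 / η ^ 2 * (|x - y| * (|x| + |y|)) := by
      have e : 8 * (|x - y| / η) = 8 / η ^ 2 * (|x - y| * η) := by field_simp
      have e2 : 32 / η ^ 2 * (|x - y| * (|x| + |y|)) =
          8 / η ^ 2 * (|x - y| * (4 * (|x| + |y|))) := by ring
      rw [e, e2]
      exact mul_le_mul_of_nonneg_left (mul_le_mul_of_nonneg_left h4 (abs_nonneg _)) (by positivity)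
    have h5 : |x - y| * (|x| + |y|) ≤ (x - y) ^ 2 / ϖ + ϖ * (x ^ 2 + y ^ 2) := by
      have e1 : (x - y) ^ 2 = |x - y| ^ 2 := (sq_abs _).symm
      have e2 : x ^ 2 = |x| ^ 2 := (sq_abs _).symm
      have e3 : y ^ 2 = |y| ^ 2 := (sq_abs _).symm
      rw [e1, e2, e3]
      generalize |x - y| = u
      generalize |x| = p
      generalize |y| = q
      have e4 : u ^ 2 / ϖ + ϖ * (p ^ 2 + q ^ 2) - u * (p + q) =
          (1 / (2 * ϖ)) * ((u - ϖ * (p + q)) ^ 2 + ϖ ^ 2 * (p - q) ^ 2 + u ^ 2) := by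
        field_simp
        ring
      have e5 : 0 ≤ (1 / (2 * ϖ)) * ((u - ϖ * (p + q)) ^ 2 + ϖ ^ 2 * (p - q) ^ 2 + u ^ 2) := by
        positivity
      linarith
    calc |ct (|x| / η) - ct (|y| / η)| ≤ 8 * |(|x| / η - |y| / η)| := h1
      _ ≤ 8 * (|x - y| / η) := by linarith
      _ ≤ 32 / η ^ 2 * (|x - y| * (|x| + |y|)) := h3
      _ ≤ _ := mul_le_mul_of_nonneg_left h5 (by positivity)

private theorem fourth_TRA (x η : ℝ) (hη : 0 < η) : ct (|x| / η) ≤ 16 * x ^ 2 / η ^ 2 := by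
  by_cases h : |x| / η ≤ 1 / 4
  · rw [ct0_TRA h]
    positivity
  · push Not at h
    refine (ct1_TRA _).trans ?_
    rw [lt_div_iff₀ hη] at h
    rw [le_div_iff₀ (by positivity), ← sq_abs x]
    have h0 : 0 < η := hη
    nlinarith [abs_nonneg x]

private theorem meas_TRA (s : ℝ) (b : Pl → ℝ) (hb : Measurable b) (y₀ : ℝ) :
    Measurable (lnf s b y₀) := by
  unfold lnf pt
  apply hb.comp
  have hc : Continuous fun ρ : ℝ => (!₂[y₀, ρ + s * y₀] : EuclideanSpace ℝ (Fin 2)) := by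
    refine (PiLp.continuous_toLp 2 _).comp ?_
    refine continuous_pi fun k => ?_
    fin_cases k
    · simpa using continuous_const
    · have : Continuous fun a : ℝ => a + s * y₀ := by fun_prop
      simpa using this
  exact hc.measurable

theorem hTRA (hGR : Pool.Agent.Helper61.P3.StGR) (hGA : Pool.Agent.Helper61.P3.StGA)
    (hGE : Pool.Agent.Helper61.P3.StGE) : Pool.Agent.Helper61.P3.StTRA := by
  have _ := hGR
  have _ := hGA
  refine ⟨?_, ?_, third_TRA, ?_, lip_TRA⟩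
  · intro s o Γ i a ℓ b w
    unfold EN
    rw [← lintegral_sub_right_eq_self
      (fun y₀ : ℝ => ∫⁻ ρ : ℝ, ENNReal.ofReal (en (gk i o) Γ a ℓ (lnf s b y₀) ρ)) (w 0)]
    apply lintegral_congr
    intro y₀
    rw [← lintegral_sub_right_eq_self
      (fun ρ : ℝ => ENNReal.ofReal (en (gk i o) Γ a ℓ (lnf s b (y₀ - w 0)) ρ)) (pr s w)]
    apply lintegral_congr
    intro ρ
    rw [lnf_TRA, en_TRA]
  · intro s Γ κ a a' ℓ b hκ hΓ hb hb1 haa' ha'ℓ
    unfold EN
    refine lintegral_mono fun y₀ => lintegral_mono fun ρ => ENNReal.ofReal_le_ofReal ?_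
    exact ((hGE κ hκ (lnf s b y₀) Γ a ℓ (meas_TRA s b hb y₀) (fun t => hb1 _) hΓ
      (haa'.trans ha'ℓ)).2.2.2.1 a' haa' ha'ℓ ρ).1
  · intro x η hη
    exact ⟨ctnn_TRA _, ct1_TRA _, fourth_TRA x η hη⟩

end Pool.Agent.Helper26.P3
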